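import Pool.Agent.Q284.NP.Stm
import Pool.Agent.Q284.PAC.Pt

/-!
# Project NP, job GLO: global functions of a proper geometrically integral scheme over a field
-/

set_option autoImplicit false

namespace Pool.Agent.Q65.NP

open CategoryTheory Limits AlgebraicGeometry
open scoped TensorProduct
open Pool.Agent.Q284.NP

/-- GLO -/
theorem glo : S_GLO := by
  intro K _ X f _ _ g
  have hX : IsIntegral X := GeometricallyIntegral.isIntegral_of_subsingleton f
  -- an affine open subscheme
  obtain ⟨x, -⟩ := f.surjective (IsLocalRing.closedPoint K)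
  obtain ⟨i, y, -⟩ := X.affineCover.exists_eq x
  obtain ⟨R, e⟩ : ∃ R : CommRingCat.{0}, Nonempty (X.affineCover.X i ≅ Spec R) := ⟨_, ⟨(X.affineCover.X i).isoSpec⟩⟩
  obtain ⟨e⟩ := e
  let j : Spec R ⟶ X := e.inv ≫ X.affineCover.f i
  have hj : IsOpenImmersion j := inferInstance
  obtain ⟨φ, hφ⟩ := Spec.map_surjective (j ≫ f)
  let A : Type := R
  let algA : Algebra K A := φ.hom.toAlgebra
  have hφA : Spec.map (CommRingCat.ofHom (algebraMap K A)) = j ≫ f := hφ
  -- it is geometrically integral
  let g' : Spec (.of (AlgebraicClosure K)) ⟶ Spec (.of K) := Spec.map (CommRingCat.ofHom (algebraMap K (AlgebraicClosure K)))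
  have h1 : IsIntegral (pullback f g') :=
    pullback_of_geometrically GeometricallyIntegral.geometrically_isIntegral (AlgebraicClosure K) g'
  have hne : Nonempty (Spec R) := ⟨e.hom y⟩
  have hA : Nontrivial A := by
    obtain ⟨p⟩ := hne
    exact PrimeSpectrum.nontrivial p
  have hinj : Function.Injective (Algebra.TensorProduct.includeLeft : A →ₐ[K] A ⊗[K] AlgebraicClosure K) :=
    Algebra.TensorProduct.includeLeft_injective (FaithfulSMul.algebraMap_injective K (AlgebraicClosure K))
  have hT : Nontrivial (A ⊗[K] AlgebraicClosure K) := hinj.nontrivial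
  have e1 : pullback j (pullback.fst f g') ≅ Spec (.of (A ⊗[K] AlgebraicClosure K)) :=
    pullbackRightPullbackFstIso f g' j ≪≫ (pullback.congrHom hφA.symm rfl) ≪≫ pullbackSpecIso K A (AlgebraicClosure K)
  have h2 : Nonempty (pullback j (pullback.fst f g') : Scheme.{0}) := by
    obtain ⟨p⟩ := (inferInstance : Nonempty (PrimeSpectrum (A ⊗[K] AlgebraicClosure K)))
    exact ⟨e1.inv p⟩
  have h3 : IsIntegral (pullback j (pullback.fst f g')) :=
    isIntegral_of_isOpenImmersion (pullback.snd j (pullback.fst f g'))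
  have h4 : IsIntegral (Spec (.of (A ⊗[K] AlgebraicClosure K))) := IsIntegral.of_isIso e1.hom
  have h5 : IsDomain (A ⊗[K] AlgebraicClosure K) := (affine_isIntegral_iff _).1 h4
  have hAd : IsDomain A := Pool.Agent.Q284.PAC.isDomain_of_tensor K A
  -- the global functions
  let F : CommRingCat.of K ⟶ Γ(X, ⊤) := (Scheme.ΓSpecIso (.of K)).inv ≫ f.appTop
  have hF : F.hom.IsIntegral := by
    apply RingHom.isIntegral_respectsIso.2 (e := (Scheme.ΓSpecIso _).symm.commRingCatIsoToRingEquiv)
    exact isIntegral_appTop_of_universallyClosed f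
  let algG : Algebra K Γ(X, ⊤) := F.hom.toAlgebra
  have hG : IsDomain Γ(X, ⊤) := inferInstance
  let ρ : Γ(X, ⊤) →+* A := (j.appTop ≫ (Scheme.ΓSpecIso R).hom).hom
  have hρ : ρ.comp (algebraMap K Γ(X, ⊤)) = algebraMap K A := by
    have h6 : F ≫ j.appTop ≫ (Scheme.ΓSpecIso R).hom = φ := by
      show ((Scheme.ΓSpecIso (.of K)).inv ≫ f.appTop) ≫ j.appTop ≫ (Scheme.ΓSpecIso R).hom = φ
      rw [Category.assoc, ← Category.assoc f.appTop, ← Scheme.Hom.comp_appTop, ← hφ, Scheme.ΓSpecIso_naturality,
        Iso.inv_hom_id_assoc]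
    exact congrArg CommRingCat.Hom.hom h6
  have hint : IsIntegral K g := hF g
  have hirr := minpoly.irreducible hint
  by_cases hd : (minpoly K g).degree = 1
  · obtain ⟨c, hc⟩ := minpoly.mem_range_of_degree_eq_one K g hd
    exact ⟨c, hc⟩
  · exfalso
    refine Pool.Agent.Q284.PAC.noroot_frac K A (minpoly K g)
      (fun z hz => hd (Polynomial.degree_eq_one_of_irreducible_of_root hirr hz))
      (algebraMap A (FractionRing A) (ρ g)) ?_
    rw [← Polynomial.hom_eval₂, ← hρ, ← Polynomial.hom_eval₂]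
    have h7 : Polynomial.eval₂ (algebraMap K Γ(X, ⊤)) g (minpoly K g) = 0 := minpoly.aeval K g
    rw [h7, map_zero, map_zero]

end Pool.Agent.Q65.NP
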