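import Pool.Agent.Q284.NP.Stm

/-!
# Project NP, job STK: the stalks of a smooth scheme over a perfect field
-/

set_option autoImplicit false

namespace Pool.Agent.Q65.NP

open CategoryTheory Limits AlgebraicGeometry
open Pool.Agent.Q284.NP

/-- STK -/
theorem stk : S_STK := by
  intro hSMO p _ K _ _ hK X f _ _ x
  obtain ⟨_, ⟨V, hV, rfl⟩, hxV, -⟩ :=
    X.isBasis_affineOpens.exists_subset_of_mem_open (Set.mem_univ x) isOpen_univ
  let ψ : CommRingCat.of K ⟶ Γ(X, V) := (Scheme.ΓSpecIso (.of K)).inv ≫ f.appLE ⊤ V (by simp)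
  have hψ : ψ.hom.Smooth := by
    have h1 := f.smooth_appLE (isAffineOpen_top _) hV (U := ⊤) (by simp)
    apply RingHom.Smooth.respectsIso.2 (e := (Scheme.ΓSpecIso _).symm.commRingCatIsoToRingEquiv)
    exact h1
  let B : Type := Γ(X, V)
  let algB : Algebra K B := ψ.hom.toAlgebra
  have hsm : Algebra.Smooth K B := hψ
  let A : Type := X.presheaf.stalk x
  let algA : Algebra B A := X.presheaf.algebra_section_stalk ⟨x, hxV⟩
  have hloc : IsLocalization.AtPrime A (hV.primeIdealOf ⟨x, hxV⟩).asIdeal := hV.isLocalization_stalk ⟨x, hxV⟩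
  have hdom : IsDomain A := inferInstanceAs (IsDomain (X.presheaf.stalk x))
  have hft : Algebra.FiniteType K B := inferInstance
  have hBn : IsNoetherianRing B := Algebra.FiniteType.isNoetherianRing K B
  refine ⟨hSMO p K B A (hV.primeIdealOf ⟨x, hxV⟩).asIdeal hK, ?_, ?_⟩
  · exact IsLocalization.isNoetherianRing (hV.primeIdealOf ⟨x, hxV⟩).asIdeal.primeCompl A hBn
  · exact charP_of_injective_ringHom (f := (algebraMap B A).comp (algebraMap K B)) (RingHom.injective _) p

end Pool.Agent.Q65.NP
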